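import Pool.Agent.H41.GM.Stm

/-! # Project GM (helper41): module SUM (helper59) -/

set_option autoImplicit false

namespace Pool.Agent.H59.GM

open Filter Topology Pool.Agent.H41.GM

theorem base_mono (j : ℕ) : (j : ℝ) / Real.log ((j : ℝ) + 2) ≤ ((j + 1 : ℕ) : ℝ) / Real.log (((j + 1 : ℕ) : ℝ) + 2) := by
  have hj : (0 : ℝ) ≤ j := Nat.cast_nonneg j
  have h0 : 0 < Real.log ((j : ℝ) + 2) := Real.log_pos (by linarith)
  have h1 : 0 < Real.log (((j + 1 : ℕ) : ℝ) + 2) := Real.log_pos (by push_cast; linarith)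
  rw [div_le_div_iff₀ h0 h1]
  push_cast
  have h2 : Real.log ((j : ℝ) + 1 + 2) ≤ Real.log ((j : ℝ) + 2) + 1 / ((j : ℝ) + 2) := by
    have e : (j : ℝ) + 1 + 2 = ((j : ℝ) + 2) * (((j : ℝ) + 1 + 2) / ((j : ℝ) + 2)) := by field_simp
    rw [e, Real.log_mul (by positivity) (by positivity)]
    have h3 := Real.log_le_sub_one_of_pos (show (0 : ℝ) < ((j : ℝ) + 1 + 2) / ((j : ℝ) + 2) by positivity)
    have h4 : ((j : ℝ) + 1 + 2) / ((j : ℝ) + 2) - 1 = 1 / ((j : ℝ) + 2) := by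
      field_simp
      ring
    linarith
  have h5 := Real.one_sub_inv_le_log_of_pos (show (0 : ℝ) < (j : ℝ) + 2 by positivity)
  have h6 : (j : ℝ) * (1 / ((j : ℝ) + 2)) = 1 - 2 * ((j : ℝ) + 2)⁻¹ := by
    field_simp
    ring
  have h7 : 0 ≤ ((j : ℝ) + 2)⁻¹ := by positivity
  have h8 := mul_le_mul_of_nonneg_left h2 hj
  nlinarith

theorem aa_mono : Monotone aa := by
  refine monotone_nat_of_le_succ fun j => ?_
  unfold aa
  have hj : (0 : ℝ) ≤ j := Nat.cast_nonneg j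
  have h0 : 0 < Real.log ((j : ℝ) + 2) := Real.log_pos (by linarith)
  exact Real.rpow_le_rpow (by positivity) (base_mono j) (by norm_num)

theorem aa_nonneg (j : ℕ) : 0 ≤ aa j := by
  unfold aa
  have hj : (0 : ℝ) ≤ j := Nat.cast_nonneg j
  have h0 : 0 < Real.log ((j : ℝ) + 2) := Real.log_pos (by linarith)
  positivity

theorem aa_mul {K i : ℕ} (hK : 1 ≤ K) (hi : K ≤ i) : ((K : ℝ) / 2) ^ (4 / 5 : ℝ) * aa i ≤ aa (K * i) := by
  unfold aa
  have hi0 : (0 : ℝ) ≤ i := Nat.cast_nonneg i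
  have hK0 : (0 : ℝ) < K := by exact_mod_cast hK
  have h0 : 0 < Real.log ((i : ℝ) + 2) := Real.log_pos (by linarith)
  have h1 : 0 < Real.log (((K * i : ℕ) : ℝ) + 2) := Real.log_pos (by
    have : (0 : ℝ) ≤ ((K * i : ℕ) : ℝ) := Nat.cast_nonneg _
    linarith)
  rw [← Real.mul_rpow (by positivity) (by positivity)]
  apply Real.rpow_le_rpow (by positivity) _ (by norm_num)
  have h2 : Real.log (((K * i : ℕ) : ℝ) + 2) ≤ 2 * Real.log ((i : ℝ) + 2) := by
    have h3 : Real.log (((K * i : ℕ) : ℝ) + 2) ≤ Real.log (((i : ℝ) + 2) ^ 2) := by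
      apply Real.log_le_log (by positivity)
      push_cast
      have h4 : (K : ℝ) ≤ i := by exact_mod_cast hi
      nlinarith
    rwa [Real.log_pow] at h3
  rw [div_mul_div_comm, div_le_div_iff₀ (by positivity) h1]
  push_cast
  have h5 : 0 ≤ (K : ℝ) * i := by positivity
  push_cast at h2
  nlinarith [mul_le_mul_of_nonneg_left h2 h5]

theorem sum_div (f : ℕ → ℝ) {K : ℕ} (hK : 1 ≤ K) (N : ℕ) :
    ∑ j ∈ Finset.range (K * N), f (j / K) = K * ∑ i ∈ Finset.range N, f i := by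
  induction N with
  | zero => simp
  | succ N ih =>
    rw [Nat.mul_succ, Finset.sum_range_add, ih, Finset.sum_range_succ, mul_add]
    congr 1
    have : ∀ x ∈ Finset.range K, f ((K * N + x) / K) = f N := by
      intro x hx
      rw [Finset.mem_range] at hx
      congr 1
      rw [Nat.mul_add_div (by omega), Nat.div_eq_of_lt hx, add_zero]
    rw [Finset.sum_congr rfl this, Finset.sum_const, Finset.card_range, nsmul_eq_mul]

theorem summable_div (f : ℕ → ℝ) (h0 : ∀ i, 0 ≤ f i) (hf : Summable f) {K : ℕ} (hK : 1 ≤ K) :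
    Summable (fun j => f (j / K)) := by
  refine summable_of_sum_range_le (c := K * ∑' i, f i) (fun j => h0 _) fun N => ?_
  calc ∑ j ∈ Finset.range N, f (j / K) ≤ ∑ j ∈ Finset.range (K * N), f (j / K) := by
        apply Finset.sum_le_sum_of_subset_of_nonneg
        · apply Finset.range_mono
          nlinarith
        · intro j _ _
          exact h0 _
    _ = K * ∑ i ∈ Finset.range N, f i := sum_div f hK N
    _ ≤ K * ∑' i, f i := mul_le_mul_of_nonneg_left (hf.sum_le_tsum _ fun i _ => h0 i) (Nat.cast_nonneg _)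

theorem main (T : ℝ → ℝ) (hT : Antitone T) (h0 : ∀ t, 0 ≤ T t) (c : ℝ) (hc : 0 < c)
    (h : Summable fun j : ℕ => T (aa j)) : Summable (fun j : ℕ => T (c * aa j)) := by
  obtain ⟨K, hK1, hK⟩ : ∃ K : ℕ, 1 ≤ K ∧ 1 ≤ c * ((K : ℝ) / 2) ^ (4 / 5 : ℝ) := by
    have h1 : Tendsto (fun K : ℕ => ((K : ℝ) / 2) ^ (4 / 5 : ℝ)) atTop atTop :=
      (tendsto_rpow_atTop (by norm_num)).comp (tendsto_natCast_atTop_atTop.atTop_div_const (by norm_num))
    obtain ⟨K, h2, h3⟩ := ((h1.eventually_ge_atTop (1 / c)).and (eventually_ge_atTop 1)).exists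
    refine ⟨K, h3, ?_⟩
    rw [div_le_iff₀ hc] at h2
    linarith
  rw [← summable_nat_add_iff (K * K)]
  have h2 := summable_div (fun j => T (aa j)) (fun j => h0 _) h hK1
  rw [← summable_nat_add_iff (K * K)] at h2
  refine Summable.of_nonneg_of_le (fun j => h0 _) (fun j => ?_) h2
  apply hT
  obtain ⟨i, hi⟩ : ∃ i, i = (j + K * K) / K := ⟨_, rfl⟩
  have hi1 : K ≤ i := by
    rw [hi, Nat.le_div_iff_mul_le (by omega)]
    omega
  have hi2 : K * i ≤ j + K * K := by
    rw [hi]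
    exact Nat.mul_div_le _ _
  rw [← hi]
  calc aa i = 1 * aa i := (one_mul _).symm
    _ ≤ (c * ((K : ℝ) / 2) ^ (4 / 5 : ℝ)) * aa i := mul_le_mul_of_nonneg_right hK (aa_nonneg i)
    _ = c * (((K : ℝ) / 2) ^ (4 / 5 : ℝ) * aa i) := by ring
    _ ≤ c * aa (K * i) := mul_le_mul_of_nonneg_left (aa_mul hK1 hi1) hc.le
    _ ≤ c * aa (j + K * K) := mul_le_mul_of_nonneg_left (aa_mono hi2) hc.le

theorem t_SUM : S_SUM := by
  intro T hT h0 c hc
  refine ⟨fun h => ?_, fun h => main T hT h0 c hc h⟩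
  have h1 := main (fun t => T (c * t)) (fun a b hab => hT (mul_le_mul_of_nonneg_left hab hc.le)) (fun t => h0 _)
    c⁻¹ (inv_pos.2 hc) h
  refine h1.congr fun j => ?_
  rw [← mul_assoc, mul_inv_cancel₀ hc.ne', one_mul]

theorem sum : S_SUM := t_SUM

end Pool.Agent.H59.GM
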